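import Pool.Agent.MP_20201c_gt.H91.Defs0

/-! Domains with boundary of class `C²` and their billiard trajectories. -/

open Set Filter Topology

namespace Pool.Agent.MP_20201c_gt.H27
open Pool.Agent.MP_20201c_gt.H91

/-- Near every boundary point `Ω` is the positive side of a `C²` function with nonzero gradient. -/
def SmoothBd (Ω : Set ℂ) : Prop :=
  ∀ q ∈ frontier Ω, ∃ ρ : ℂ → ℝ, ContDiffAt ℝ 2 ρ q ∧ fderiv ℝ ρ q ≠ 0 ∧
    ∀ᶠ z in 𝓝 q, z ∈ Ω ↔ 0 < ρ z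

/-- The tangent line of the boundary at `q`. -/
noncomputable def tline (Ω : Set ℂ) (q : ℂ) : Submodule ℝ ℂ :=
  Submodule.span ℝ (tangentConeAt ℝ (frontier Ω) q)

/-- Specular reflection from the segment `s` to the segment `s'`. -/
def Spec (Ω : Set ℂ) (s s' : ℂ × ℂ) : Prop :=
  s.2 = s'.1 ∧ dir s' = (tline Ω s.2).reflection (dir s)

/-- Billiard trajectories in `Ω`, as lists of oriented segments. -/
def Billiard (Ω : Set ℂ) (γ : List (ℂ × ℂ)) : Prop :=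
  ∃ h : γ ≠ [],
    (∀ s ∈ γ, s.1 ≠ s.2 ∧ s.1 ∈ frontier Ω ∧ s.2 ∈ frontier Ω ∧ segment ℝ s.1 s.2 ⊆ closure Ω) ∧
    γ.IsChain (Spec Ω) ∧
    (Spec Ω (γ.getLast h) (γ.head h) ∨
      (dir (γ.head h) ∈ (tline Ω (γ.head h).1)ᗮ ∧
        dir (γ.getLast h) ∈ (tline Ω (γ.getLast h).2)ᗮ))

end Pool.Agent.MP_20201c_gt.H27
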