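import Pool.Agent.MP_20201c_gt.H91.Defs0

/-! The divergence theorem for a half plane. -/

open MeasureTheory Set Filter Topology
open scoped ENNReal

namespace Pool.Agent.MP_20201c_gt.H27
open Pool.Agent.MP_20201c_gt.H91

theorem cont_dd {φ : ℂ → ℂ} (h1 : ContDiff ℝ 1 φ) (v : ℂ) : Continuous fun z => fderiv ℝ φ z v :=
  (h1.continuous_fderiv one_ne_zero).clm_apply continuous_const

theorem supp_dd {φ : ℂ → ℂ} (h2 : HasCompactSupport φ) (v : ℂ) :
    HasCompactSupport fun z => fderiv ℝ φ z v :=
  (h2.fderiv ℝ).comp_left (g := fun L : ℂ →L[ℝ] ℂ => L v) (by simp)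

theorem int_dd {φ : ℂ → ℂ} (h1 : ContDiff ℝ 1 φ) (h2 : HasCompactSupport φ) (v : ℂ) :
    Integrable fun z => fderiv ℝ φ z v :=
  (cont_dd h1 v).integrable_of_hasCompactSupport (supp_dd h2 v)

theorem int_dvg {φ : ℂ → ℂ} (h1 : ContDiff ℝ 1 φ) (h2 : HasCompactSupport φ) :
    Integrable (dvg φ) :=
  (int_dd h1 h2 1).re.add (int_dd h1 h2 Complex.I).im

theorem line_supp {F : Type} [Zero F] {g : ℂ → F} (h2 : HasCompactSupport g) (a v : ℂ)
    (hv : v ≠ 0) : HasCompactSupport fun t : ℝ => g (a + t • v) := by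
  refine h2.comp_isClosedEmbedding (g := fun t : ℝ => a + t • v) ?_
  exact (Homeomorph.addLeft a).isClosedEmbedding.comp (isClosedEmbedding_smul_left hv)

theorem line_deriv {φ : ℂ → ℂ} (h1 : ContDiff ℝ 1 φ) (a v : ℂ) (t : ℝ) :
    HasDerivAt (fun t : ℝ => φ (a + t • v)) (fderiv ℝ φ (a + t • v) v) t := by
  have h : HasDerivAt (fun t : ℝ => a + t • v) v t := by
    simpa using ((hasDerivAt_id t).smul_const v).const_add a
  exact ((h1.differentiable one_ne_zero) _).hasFDerivAt.comp_hasDerivAt t h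

theorem line_cont (a v : ℂ) : Continuous fun t : ℝ => a + t • v := by fun_prop

theorem line_all {φ : ℂ → ℂ} (h1 : ContDiff ℝ 1 φ) (h2 : HasCompactSupport φ) (a v : ℂ)
    (hv : v ≠ 0) : ∫ t : ℝ, fderiv ℝ φ (a + t • v) v = 0 :=
  integral_eq_zero_of_hasDerivAt_of_integrable (line_deriv h1 a v)
    (((cont_dd h1 v).comp (line_cont a v)).integrable_of_hasCompactSupport
      (line_supp (supp_dd h2 v) a v hv))
    ((h1.continuous.comp (line_cont a v)).integrable_of_hasCompactSupport (line_supp h2 a v hv))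

theorem line_Iic {φ : ℂ → ℂ} (h1 : ContDiff ℝ 1 φ) (h2 : HasCompactSupport φ) (a v : ℂ)
    (hv : v ≠ 0) (β : ℝ) : ∫ t in Iic β, fderiv ℝ φ (a + t • v) v = φ (a + β • v) := by
  have hi := (((cont_dd h1 v).comp (line_cont a v)).integrable_of_hasCompactSupport
      (μ := volume) (line_supp (supp_dd h2 v) a v hv))
  have h0 : Tendsto (fun t : ℝ => φ (a + t • v)) atBot (𝓝 0) :=
    (line_supp h2 a v hv).is_zero_at_infty.mono_left atBot_le_cocompact
  have := integral_Iic_of_hasDerivAt_of_tendsto' (fun t _ => line_deriv h1 a v t)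
    (hi.integrableOn (s := Iic β)) h0
  simpa using this

theorem half_fub {g : ℂ → ℂ} (hg : Integrable g) (β : ℝ) :
    (∫ z in {z : ℂ | z.re ≤ β}, g z =
      ∫ x in Iic β, ∫ y : ℝ, g ((x : ℂ) + y • Complex.I)) ∧
    ∫ z in {z : ℂ | z.re ≤ β}, g z =
      ∫ y : ℝ, ∫ x in Iic β, g ((y : ℂ) * Complex.I + x • (1 : ℂ)) := by
  have hp := Complex.volume_preserving_equiv_real_prod
  have he := Complex.measurableEquivRealProd.measurableEmbedding
  have h1 := hp.setIntegral_preimage_emb he (fun w => g (Complex.measurableEquivRealProd.symm w))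
    (Iic β ×ˢ univ)
  have hs : Complex.measurableEquivRealProd ⁻¹' (Iic β ×ˢ univ) = {z : ℂ | z.re ≤ β} := by
    ext z; simp
  simp only [hs, MeasurableEquiv.symm_apply_apply] at h1
  have hi : Integrable (fun w => g (Complex.measurableEquivRealProd.symm w))
      ((volume : Measure ℝ).prod volume) :=
    (hp.symm.integrable_comp_emb Complex.measurableEquivRealProd.symm.measurableEmbedding).2 hg
  have hi' : Integrable (fun w => g (Complex.measurableEquivRealProd.symm w))
      (((volume : Measure ℝ).restrict (Iic β)).prod (volume.restrict univ)) := by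
    rw [Measure.prod_restrict]; exact hi.integrableOn
  rw [h1, Measure.volume_eq_prod, ← Measure.prod_restrict]
  constructor
  · rw [integral_prod _ hi', Measure.restrict_univ]
    congr 1; funext x; congr 1; funext y; congr 1
    apply Complex.ext <;> simp
  · rw [integral_prod_symm _ hi', Measure.restrict_univ]
    congr 1; funext y; congr 1; funext x; congr 1
    apply Complex.ext <;> simp

theorem half_dvg {φ : ℂ → ℂ} (h1 : ContDiff ℝ 1 φ) (h2 : HasCompactSupport φ) (β : ℝ) :
    ∫ z in {z : ℂ | z.re ≤ β}, dvg φ z = ∫ y : ℝ, (φ ((β : ℂ) + y • Complex.I)).re := by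
  have i1 := int_dd h1 h2 1
  have i2 := int_dd h1 h2 Complex.I
  have e1 : ∫ z in {z : ℂ | z.re ≤ β}, fderiv ℝ φ z 1 = ∫ y : ℝ, φ ((β : ℂ) + y • Complex.I) := by
    rw [(half_fub i1 β).2]
    congr 1; funext y
    rw [line_Iic h1 h2 _ 1 one_ne_zero]
    congr 1; apply Complex.ext <;> simp
  have e2 : ∫ z in {z : ℂ | z.re ≤ β}, fderiv ℝ φ z Complex.I = 0 := by
    rw [(half_fub i2 β).1]
    simp only [line_all h1 h2 _ Complex.I Complex.I_ne_zero, integral_zero]
  have i3 : Integrable fun y : ℝ => φ ((β : ℂ) + y • Complex.I) :=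
    (h1.continuous.comp (line_cont _ _)).integrable_of_hasCompactSupport
      (line_supp h2 _ _ Complex.I_ne_zero)
  unfold dvg
  have a0 := integral_add (μ := volume.restrict {z : ℂ | z.re ≤ β})
    i1.re.integrableOn i2.im.integrableOn
  have a1 := integral_re (μ := volume.restrict {z : ℂ | z.re ≤ β}) i1.integrableOn
  have a2 := integral_im (μ := volume.restrict {z : ℂ | z.re ≤ β}) i2.integrableOn
  have a3 := integral_re i3
  simp only [RCLike.re_to_complex, RCLike.im_to_complex] at a0 a1 a2 a3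
  rw [a0, a1, a2, a3, e1, e2]; simp

theorem half_le {φ : ℂ → ℂ} (h1 : ContDiff ℝ 1 φ) (h2 : HasCompactSupport φ) {q : ℂ} {r : ℝ}
    (hr : 0 ≤ r) (h3 : tsupport φ ⊆ Metric.ball q r) (h4 : ∀ z, ‖φ z‖ ≤ 1) (β : ℝ) :
    |∫ z in {z : ℂ | z.re ≤ β}, dvg φ z| ≤ 2 * r := by
  rw [half_dvg h1 h2, ← Real.norm_eq_abs]
  have hb : ∀ y : ℝ, ‖(φ ((β : ℂ) + y • Complex.I)).re‖ ≤
      (Icc (q.im - r) (q.im + r)).indicator (fun _ => (1 : ℝ)) y := by
    intro y
    by_cases hy : y ∈ Icc (q.im - r) (q.im + r)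
    · rw [indicator_of_mem hy]
      exact (Complex.abs_re_le_norm _).trans (h4 _)
    · rw [indicator_of_notMem hy]
      have : φ ((β : ℂ) + y • Complex.I) = 0 := by
        by_contra hne
        have h5 := h3 (subset_tsupport _ hne)
        rw [Metric.mem_ball, dist_eq_norm] at h5
        have h6 := (Complex.abs_im_le_norm _).trans_lt h5
        simp only [Complex.sub_im, Complex.add_im, Complex.ofReal_im, Complex.real_smul,
          Complex.mul_im, Complex.ofReal_re, Complex.I_im, Complex.I_re] at h6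
        have := abs_lt.1 h6
        exact hy ⟨by linarith [this.1], by linarith [this.2]⟩
      rw [this]; simp
  refine (norm_integral_le_of_norm_le ?_ (Eventually.of_forall hb)).trans ?_
  · exact (integrable_indicator_iff measurableSet_Icc).2 (integrableOn_const (by simp))
  · rw [integral_indicator measurableSet_Icc]
    simp only [integral_const, smul_eq_mul, mul_one, MeasurableSet.univ,
      measureReal_restrict_apply, univ_inter, Real.volume_real_Icc]
    exact max_le (by linarith) (by linarith)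

end Pool.Agent.MP_20201c_gt.H27
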