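import Pool.Agent.MP_20201c_gt.H27.Dom

/-! Global defining functions and the tangent line of the boundary. -/

open Set Filter Topology

namespace Pool.Agent.MP_20201c_gt.H27
open Pool.Agent.MP_20201c_gt.H91

variable {Ω : Set ℂ}

theorem pos_dir {g : ℂ → ℝ} {q v : ℂ} (hg : DifferentiableAt ℝ g q) (h0 : g q = 0)
    (hv : 0 < fderiv ℝ g q v) : ∀ᶠ t : ℝ in 𝓝[>] 0, 0 < g (q + t • v) := by
  have h : HasDerivAt (fun t : ℝ => q + t • v) v 0 := by
    simpa using ((hasDerivAt_id (0 : ℝ)).smul_const v).const_add q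
  have h1 : HasDerivAt (fun t : ℝ => g (q + t • v)) (fderiv ℝ g q v) 0 :=
    HasFDerivAt.comp_hasDerivAt_of_eq 0 hg.hasFDerivAt h (by simp)
  filter_upwards [h1.tendsto_slope_zero_right.eventually (lt_mem_nhds hv), self_mem_nhdsWithin]
    with t h2 h3
  simp only [zero_add, zero_smul, add_zero, h0, sub_zero, smul_eq_mul] at h2
  exact (pos_iff_pos_of_mul_pos h2).1 (inv_pos.2 h3)

theorem neg_dir {g : ℂ → ℝ} {q v : ℂ} (hg : DifferentiableAt ℝ g q) (h0 : g q = 0)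
    (hv : fderiv ℝ g q v < 0) : ∀ᶠ t : ℝ in 𝓝[>] 0, g (q + t • v) < 0 := by
  have := pos_dir (g := -g) (v := v) hg.neg (by simp [h0]) (by rw [fderiv_neg]; simpa using hv)
  exact this.mono fun t ht => by simpa using ht

theorem exists_pos_dir {L : ℂ →L[ℝ] ℝ} (h : L ≠ 0) : ∃ v, 0 < L v := by
  obtain ⟨v, hv⟩ := DFunLike.ne_iff.1 h
  rcases lt_or_gt_of_ne (show L v ≠ 0 from hv) with h1 | h1
  · exact ⟨-v, by simpa using h1⟩
  · exact ⟨v, h1⟩

/-- `C²` functions with the sign of `Ω`. -/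
def Sgn (Ω : Set ℂ) (g : ℂ → ℝ) : Prop :=
  ContDiff ℝ 2 g ∧ (∀ z ∈ Ω, 0 ≤ g z) ∧ ∀ z ∉ Ω, g z ≤ 0

theorem Sgn.zero (ho : IsOpen Ω) {g : ℂ → ℝ} (h : Sgn Ω g) {q : ℂ} (hq : q ∈ frontier Ω) :
    g q = 0 := by
  rw [ho.frontier_eq] at hq
  exact le_antisymm (h.2.2 q hq.2)
    (closure_minimal h.2.1 (isClosed_le continuous_const h.1.continuous) hq.1)

theorem Sgn.add {g g' : ℂ → ℝ} (h : Sgn Ω g) (h' : Sgn Ω g') : Sgn Ω (g + g') :=
  ⟨h.1.add h'.1, fun z hz => add_nonneg (h.2.1 z hz) (h'.2.1 z hz),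
    fun z hz => add_nonpos (h.2.2 z hz) (h'.2.2 z hz)⟩

theorem Sgn.add_ne (ho : IsOpen Ω) {g g' : ℂ → ℝ} (h : Sgn Ω g) (h' : Sgn Ω g') {q : ℂ}
    (hq : q ∈ frontier Ω) (hne : fderiv ℝ g q ≠ 0) : fderiv ℝ (g + g') q ≠ 0 := by
  obtain ⟨v, hv⟩ := exists_pos_dir hne
  have d := h.1.differentiable two_ne_zero q
  have d' := h'.1.differentiable two_ne_zero q
  have h1 : 0 ≤ fderiv ℝ g' q v := by
    by_contra hn
    obtain ⟨t, t1, t2⟩ := ((pos_dir d (h.zero ho hq) hv).and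
      (neg_dir d' (h'.zero ho hq) (not_le.1 hn))).exists
    by_cases hz : q + t • v ∈ Ω
    · exact t2.not_ge (h'.2.1 _ hz)
    · exact t1.not_ge (h.2.2 _ hz)
  intro e
  have h2 : fderiv ℝ (g + g') q v = 0 := by rw [e]; rfl
  rw [fderiv_add d d', add_apply] at h2
  linarith

theorem exists_global (ho : IsOpen Ω) (hb : Bornology.IsBounded Ω) (h : SmoothBd Ω) :
    ∃ ρ : ℂ → ℝ, ContDiff ℝ 2 ρ ∧ Ω = {z | 0 < ρ z} ∧ ∀ z, ρ z = 0 → fderiv ℝ ρ z ≠ 0 := by
  have hK : IsCompact (frontier Ω) :=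
    hb.isCompact_closure.of_isClosed_subset isClosed_frontier frontier_subset_closure
  obtain ⟨g, hg, hg'⟩ : ∃ g, Sgn Ω g ∧ ∀ q ∈ frontier Ω, q ∈ frontier Ω → fderiv ℝ g q ≠ 0 := by
    refine hK.induction_on
      (p := fun K => ∃ g, Sgn Ω g ∧ ∀ q ∈ K, q ∈ frontier Ω → fderiv ℝ g q ≠ 0)
      ⟨0, ⟨contDiff_const, fun _ _ => le_rfl, fun _ _ => le_rfl⟩, by simp⟩
      (fun s t hst ⟨g, h1, h2⟩ => ⟨g, h1, fun q hq => h2 q (hst hq)⟩)
      (fun s t ⟨g, h1, h2⟩ ⟨g', h1', h2'⟩ => ⟨g + g', h1.add h1', fun q hq hq' => ?_⟩)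
      fun q hq => ?_
    · rcases hq with hq | hq
      · exact h1.add_ne ho h1' hq' (h2 q hq hq')
      · rw [add_comm]; exact h1'.add_ne ho h1 hq' (h2' q hq hq')
    · obtain ⟨ρ, h1, h2, h3⟩ := h q hq
      obtain ⟨ψ, p1, -, p2, p3, p4⟩ := exists_contDiff_tsupport_subset (n := 2)
        ((h1.eventually (by simp)).and h3)
      have p5 : ∀ z, 0 ≤ ψ z := fun z => (p3 ⟨z, rfl⟩).1
      have hS : Sgn Ω (ψ * ρ) := by
        refine ⟨contDiff_iff_contDiffAt.2 fun z => ?_, fun z hz => ?_, fun z hz => ?_⟩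
        · by_cases hz : z ∈ tsupport ψ
          · exact p2.contDiffAt.mul (p1 hz).1
          · refine (contDiffAt_const (c := (0 : ℝ))).congr_of_eventuallyEq ?_
            filter_upwards [notMem_tsupport_iff_eventuallyEq.1 hz] with y hy
            simp [hy]
        · by_cases h0 : ψ z = 0
          · simp [h0]
          · exact mul_nonneg (p5 z) ((p1 (subset_tsupport _ h0)).2.1 hz).le
        · by_cases h0 : ψ z = 0
          · simp [h0]
          · exact mul_nonpos_of_nonneg_of_nonpos (p5 z)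
              (not_lt.1 fun e => hz ((p1 (subset_tsupport _ h0)).2.2 e))
      have h4 : ρ q = 0 := by simpa [p4] using hS.zero ho hq
      have h5 : fderiv ℝ (ψ * ρ) q ≠ 0 := by
        rw [fderiv_mul (p2.differentiable (by simp) q) (h1.differentiableAt two_ne_zero), p4, h4]
        simpa using h2
      exact ⟨_, mem_nhdsWithin_of_mem_nhds
        ((hS.1.continuous_fderiv two_ne_zero).continuousAt.eventually_ne h5), ψ * ρ, hS,
        fun z hz _ => hz⟩
  obtain ⟨a, a1, a2, a3⟩ := ho.exists_contDiff_support_eq (n := 2)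
  obtain ⟨b, b1, b2, b3⟩ := (isClosed_closure (s := Ω)).isOpen_compl.exists_contDiff_support_eq
    (n := 2)
  have a4 : ∀ z, 0 ≤ a z := fun z => (a3 ⟨z, rfl⟩).1
  have b4 : ∀ z, 0 ≤ b z := fun z => (b3 ⟨z, rfl⟩).1
  have hin : ∀ z ∈ Ω, 0 < (a - b) z := fun z hz => by
    have h1 : a z ≠ 0 := by rw [← a1] at hz; exact hz
    have h2 : b z = 0 := by
      by_contra h3
      have : z ∈ Function.support b := h3
      rw [b1] at this; exact this (subset_closure hz)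
    simpa [h2] using lt_of_le_of_ne (a4 z) h1.symm
  have ha0 : ∀ z ∉ Ω, a z = 0 := fun z hz => by
    by_contra h3
    have : z ∈ Function.support a := h3
    rw [a1] at this; exact hz this
  have hS : Sgn Ω (a - b) := ⟨a2.sub b2, fun z hz => (hin z hz).le, fun z hz => by
    simpa [ha0 z hz] using b4 z⟩
  have hp : ∀ z ∈ Ω, 0 < (g + (a - b)) z := fun z hz =>
    add_pos_of_nonneg_of_pos (hg.2.1 z hz) (hin z hz)
  refine ⟨g + (a - b), (hg.add hS).1, ?_, fun z hz => ?_⟩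
  · ext z
    exact ⟨hp z, fun h1 => by_contra fun hz => ((hg.add hS).2.2 z hz).not_gt h1⟩
  · have h1 : z ∉ Ω := fun h1 => (hp z h1).ne' hz
    have h2 : z ∈ frontier Ω := by
      rw [ho.frontier_eq]
      refine ⟨by_contra fun h2 => ?_, h1⟩
      have h3 : b z ≠ 0 := by
        have : z ∈ Function.support b := by rw [b1]; exact h2
        exact this
      have h4 := hg.2.2 z h1
      have h5 := lt_of_le_of_ne (b4 z) h3.symm
      simp only [Pi.add_apply, Pi.sub_apply, ha0 z h1] at hz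
      linarith
    exact hg.add_ne ho hS h2 (hg' z h2 h2)

theorem tline_eq {ρ : ℂ → ℝ} (hρ : ContDiff ℝ 2 ρ) {q : ℂ} (hq : q ∈ frontier {z | 0 < ρ z})
    (hne : fderiv ℝ ρ q ≠ 0) : tline {z | 0 < ρ z} q = tang ρ q := by
  have ho : IsOpen {z | 0 < ρ z} := isOpen_lt continuous_const hρ.continuous
  have hS : Sgn {z | 0 < ρ z} ρ := ⟨hρ, fun z hz => le_of_lt hz, fun z hz => not_lt.1 hz⟩
  have d := hρ.differentiable two_ne_zero q
  have h0 := hS.zero ho hq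
  obtain ⟨v, hv⟩ := exists_pos_dir hne
  have hle : tline {z | 0 < ρ z} q ≤ tang ρ q := Submodule.span_le.2 fun w hw =>
    d.hasFDerivAt.hasFDerivWithinAt.unique_on
      ((hasFDerivWithinAt_const (0 : ℝ) q _).congr (fun z hz => hS.zero ho hz) h0) hw
  have hacc : AccPt q (𝓟 (frontier {z | 0 < ρ z})) := by
    refine accPt_iff_nhds.2 fun U hU => ?_
    obtain ⟨r, hr, hU'⟩ := Metric.mem_nhds_iff.1 hU
    have hv0 : 0 < ‖v‖ := norm_pos_iff.2 (by rintro rfl; simp at hv)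
    have e : ∀ᶠ t : ℝ in 𝓝[>] 0, t ∈ Ioo 0 (r / ‖v‖) := Ioo_mem_nhdsGT (by positivity)
    obtain ⟨t, ⟨t1, t2⟩, t3⟩ := (((pos_dir d h0 hv).and
      (neg_dir (v := -v) d h0 (by simpa using hv))).and e).exists
    have s1 : q + t • v ∈ Metric.sphere q (t * ‖v‖) := by simp [abs_of_pos t3.1]
    have s2 : q + t • -v ∈ Metric.sphere q (t * ‖v‖) := by simp [abs_of_pos t3.1]
    by_contra hn
    push Not at hn
    have hsub : Metric.sphere q (t * ‖v‖) ⊆ {z | 0 < ρ z} ∪ (closure {z | 0 < ρ z})ᶜ := by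
      intro y hy
      by_contra h1
      simp only [mem_union, mem_compl_iff, not_or, not_not] at h1
      have h2 := hn y ⟨hU' (Metric.sphere_subset_ball ((lt_div_iff₀ hv0).1 t3.2) hy),
        by rw [ho.frontier_eq]; exact ⟨h1.2, h1.1⟩⟩
      rw [h2, Metric.mem_sphere, dist_self] at hy
      exact (mul_pos t3.1 hv0).ne hy
    rcases (isPreconnected_sphere (by simp) q _).subset_or_subset ho isClosed_closure.isOpen_compl
      (disjoint_left.2 fun z h1 h2 => h2 (subset_closure h1)) hsub with h | h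
    · exact t2.not_gt (h s2)
    · exact h s1 (subset_closure t1)
  obtain ⟨w, hw, hw0⟩ := tangentConeAt_nonempty_of_properSpace (𝕜 := ℝ) hacc
  refine Submodule.eq_of_le_of_finrank_le hle ?_
  have f1 := (fderiv ℝ ρ q : ℂ →ₗ[ℝ] ℝ).finrank_range_add_finrank_ker
  have f2 : 0 < Module.finrank ℝ (LinearMap.range (fderiv ℝ ρ q : ℂ →ₗ[ℝ] ℝ)) :=
    Module.finrank_pos_iff_exists_ne_zero.2 ⟨⟨_, v, rfl⟩, fun e => hv.ne' (congrArg Subtype.val e)⟩
  have f3 : 0 < Module.finrank ℝ (tline {z | 0 < ρ z} q) :=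
    Module.finrank_pos_iff_exists_ne_zero.2
      ⟨⟨w, Submodule.subset_span hw⟩, fun e => hw0 (congrArg Subtype.val e)⟩
  rw [Complex.finrank_real_complex] at f1
  unfold tang
  omega

theorem billiard_of {ρ : ℂ → ℝ} (hρ : ContDiff ℝ 2 ρ) (hr : ∀ z, ρ z = 0 → fderiv ℝ ρ z ≠ 0)
    {γ : List (ℂ × ℂ)} (h : IsBilliard ρ γ) : Billiard {z | 0 < ρ z} γ := by
  have ho : IsOpen {z | 0 < ρ z} := isOpen_lt continuous_const hρ.continuous
  have hS : Sgn {z | 0 < ρ z} ρ := ⟨hρ, fun z hz => le_of_lt hz, fun z hz => not_lt.1 hz⟩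
  have e : ∀ q ∈ frontier {z | 0 < ρ z}, tline {z | 0 < ρ z} q = tang ρ q := fun q hq =>
    tline_eq hρ hq (hr q (hS.zero ho hq))
  obtain ⟨h0, h1, h2, h3⟩ := h
  have e2 : ∀ s ∈ γ, ∀ s', Refl ρ s s' → Spec {z | 0 < ρ z} s s' := fun s hs s' h =>
    ⟨h.1, by simp only [e _ (h1 s hs).2.2.1]; exact h.2⟩
  refine ⟨h0, h1, h2.imp_of_mem_imp fun s s' hs _ => e2 s hs s', h3.imp
    (e2 _ (List.getLast_mem h0) _) fun h => ?_⟩
  rw [e _ (h1 _ (List.head_mem h0)).2.1, e _ (h1 _ (List.getLast_mem h0)).2.2.1]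
  exact h

end Pool.Agent.MP_20201c_gt.H27
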