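import Pool.Agent.MP_20201c_gt.H91.Defs0

/-! A relative isoperimetric inequality. -/

open MeasureTheory Set Filter Topology Metric
open scoped ENNReal Convolution Manifold

namespace Pool.Agent.MP_20201c_gt.H27
open Pool.Agent.MP_20201c_gt.H91

theorem dvg_smul {k : ℂ → ℝ} {z : ℂ} (hk : DifferentiableAt ℝ k z) (v : ℂ) :
    dvg (fun t => k t • v) z = fderiv ℝ k z v := by
  have h : fderiv ℝ k z v = v.re * fderiv ℝ k z 1 + v.im * fderiv ℝ k z Complex.I := by
    conv_lhs => rw [show v = v.re • (1 : ℂ) + v.im • Complex.I by simp]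
    rw [map_add, map_smul, map_smul]; rfl
  rw [dvg, fderiv_smul_const hk, h]
  simp [mul_comm]

theorem conv_ind {E : Set ℂ} (hE : MeasurableSet E) (h : ℂ → ℝ) (w : ℂ) :
    (E.indicator (fun _ => (1 : ℝ)) ⋆[ContinuousLinearMap.lsmul ℝ ℝ, volume] h) w =
      ∫ t in E, h (w - t) := by
  rw [convolution_def, ← integral_indicator hE]
  congr 1; funext t
  by_cases ht : t ∈ E <;> simp [ht]

theorem int_le_of_per {E U : Set ℂ} {P : ℝ} (hP : 0 ≤ P) (h : per E U ≤ ENNReal.ofReal P)
    {φ : ℂ → ℂ} (h1 : ContDiff ℝ 1 φ) (h2 : HasCompactSupport φ) (h3 : tsupport φ ⊆ U)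
    (h4 : ∀ z, ‖φ z‖ ≤ 1) : ∫ z in E, dvg φ z ≤ P := by
  rw [← ENNReal.ofReal_le_ofReal_iff hP]
  refine le_trans ?_ h
  exact le_iSup_of_le φ (le_iSup_of_le h1 (le_iSup_of_le h2 (le_iSup_of_le h3
    (le_iSup_of_le h4 le_rfl))))

theorem shift_le {E : Set ℂ} (hE : MeasurableSet E) {h : ℂ → ℝ} (h1 : ContDiff ℝ 1 h)
    {q : ℂ} {r : ℝ} (hr : 0 < r) (h2 : ∀ z, h z ≠ 0 → -z ∈ ball q r) (h3 : ∀ z, |h z| ≤ 1)
    {P : ℝ} (hP : 0 ≤ P) (hper : per E (ball q (4 * r)) ≤ ENNReal.ofReal P) {w : ℂ}
    (hw : w ∈ closedBall (0 : ℂ) (2 * r)) :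
    ∫ t in E, h (w - t) ≤ (∫ t in E, h (0 - t)) + P * (2 * r) := by
  have hc : HasCompactSupport h :=
    HasCompactSupport.intro (isCompact_closedBall (-q) r) fun z hz => by
      by_contra hne
      apply hz
      have := h2 z hne
      rw [mem_ball, dist_eq_norm] at this
      rw [mem_closedBall, dist_eq_norm, ← norm_neg]
      refine le_of_eq_of_le ?_ this.le
      congr 1; ring
  have hl : LocallyIntegrable (E.indicator fun _ => (1 : ℝ)) volume :=
    (locallyIntegrable_const 1).indicator hE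
  have hd := hc.hasFDerivAt_convolution_right (ContinuousLinearMap.lsmul ℝ ℝ) hl h1
  have key : ∀ x ∈ closedBall (0 : ℂ) (2 * r), ∀ v : ℂ, ‖v‖ = 1 →
      -∫ t in E, fderiv ℝ h (x - t) v ≤ P := by
    intro x hx v hv
    have hs : tsupport (fun t => h (x - t) • v) ⊆ closedBall q (3 * r) := by
      refine closure_minimal (fun t ht => ?_) isClosed_closedBall
      have h4 := h2 (x - t) fun e => ht (by simp [e])
      rw [mem_ball, dist_eq_norm] at h4
      rw [mem_closedBall_zero_iff] at hx
      rw [mem_closedBall, dist_eq_norm, show t - q = (-(x - t) - q) + x by ring]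
      linarith [norm_add_le (-(x - t) - q) x]
    have hk : ContDiff ℝ 1 fun t => h (x - t) := h1.comp (contDiff_const.sub contDiff_id)
    have := int_le_of_per hP hper (φ := fun t => h (x - t) • v) (hk.smul contDiff_const)
      ((isCompact_closedBall q (3 * r)).of_isClosed_subset (isClosed_tsupport _) hs)
      (hs.trans (closedBall_subset_ball (by linarith)))
      (fun z => by rw [norm_smul, hv, mul_one]; exact h3 _)
    rw [← integral_neg]
    refine le_of_eq_of_le ?_ this
    congr 1; funext t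
    rw [dvg_smul (hk.differentiable one_ne_zero t)]
    have h5 : HasFDerivAt (fun t => h (x - t)) ((fderiv ℝ h (x - t)).comp
        (-ContinuousLinearMap.id ℝ ℂ)) t :=
      (h1.differentiable one_ne_zero _).hasFDerivAt.comp t ((hasFDerivAt_id t).const_sub x)
    rw [h5.fderiv]; simp
  have hb := (convex_closedBall (0 : ℂ) (2 * r)).norm_image_sub_le_of_norm_hasFDerivWithin_le
    (C := P) (fun x _ => (hd x).hasFDerivWithinAt) (fun x hx => by
      refine ContinuousLinearMap.opNorm_le_of_unit_norm hP fun v hv => ?_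
      rw [convolution_precompR_apply _ hl (hc.fderiv ℝ) (h1.continuous_fderiv one_ne_zero),
        conv_ind hE, Real.norm_eq_abs, abs_le]
      have a1 := key x hx v hv
      have a2 := key x hx (-v) (by rw [norm_neg, hv])
      simp only [map_neg, integral_neg, neg_neg] at a2
      exact ⟨by linarith, a2⟩) (mem_closedBall_self (by linarith)) hw
  rw [conv_ind hE, conv_ind hE, sub_zero, Real.norm_eq_abs] at hb
  have h6 : P * ‖w‖ ≤ P * (2 * r) := mul_le_mul_of_nonneg_left (mem_closedBall_zero_iff.1 hw) hP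
  linarith [(abs_le.1 hb).2]

theorem loc_iso {E : Set ℂ} (hE : MeasurableSet E) {q : ℂ} {r : ℝ} (hr : 0 < r) {P : ℝ}
    (hP : 0 ≤ P) (hper : per E (ball q (4 * r)) ≤ ENNReal.ofReal P) :
    volume.real (E ∩ ball q r) * volume.real (Eᶜ ∩ ball q r) ≤
      volume.real (closedBall (0 : ℂ) (2 * r)) * (P * (2 * r)) := by
  set a := volume.real (E ∩ ball q r) with ha
  set c := volume.real (closedBall (0 : ℂ) (2 * r)) with hc
  have ha0 : 0 ≤ a := measureReal_nonneg
  have hc0 : 0 ≤ c := measureReal_nonneg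
  have hB : volume (ball q r) ≠ ∞ := measure_ball_lt_top.ne
  have hfin : ∀ S : Set ℂ, S ⊆ ball q r → volume S ≠ ∞ := fun S h => measure_ne_top_of_subset h hB
  suffices H : ∀ ε : ℝ, 0 < ε → a * (volume.real (Eᶜ ∩ ball q r) - ε) ≤ c * (ε + P * (2 * r)) by
    refine le_of_forall_pos_le_add fun ε hε => ?_
    have h1 := H (ε / (a + c + 1)) (by positivity)
    have h2 : (a + c) * (ε / (a + c + 1)) ≤ ε := by
      rw [← mul_div_assoc, div_le_iff₀ (by positivity)]; nlinarith
    nlinarith
  intro ε hε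
  have hε' : ENNReal.ofReal ε ≠ 0 := by simpa using hε
  obtain ⟨K, hKA, hK, hK1⟩ := (hE.compl.inter measurableSet_ball).exists_isCompact_sdiff_lt
    (hfin _ inter_subset_right) hε'
  have hKB : K ⊆ ball q r := hKA.trans inter_subset_right
  obtain ⟨V, hKV, hV, -, hV1⟩ := hK.measurableSet.exists_isOpen_sdiff_lt (hfin _ hKB) hε'
  obtain ⟨g, hg0, hg1, hg⟩ := exists_contMDiffMap_zero_one_of_isClosed (n := 1) 𝓘(ℝ, ℂ)
    (hV.inter isOpen_ball).isClosed_compl hK.isClosed
    (disjoint_left.2 fun z hz hz' => hz ⟨hKV hz', hKB hz'⟩)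
  have hgd : ContDiff ℝ 1 g := g.contMDiff.contDiff
  have hgs : ∀ z, g z ≠ 0 → z ∈ V ∩ ball q r := fun z hz => by
    by_contra hn; exact hz (hg0 hn)
  have hgc : HasCompactSupport g :=
    HasCompactSupport.intro (isCompact_closedBall q r) fun z hz => by
      by_contra hne; exact hz (ball_subset_closedBall (hgs z hne).2)
  have hgi : Integrable g := hgd.continuous.integrable_of_hasCompactSupport hgc
  have hhi : Integrable fun z => g (-z) := hgi.comp_neg
  have hmA : MeasurableSet (E ∩ ball q r) := hE.inter measurableSet_ball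
  have hI := integral_convolution (ContinuousLinearMap.lsmul ℝ ℝ) (μ := volume) (ν := volume)
    ((integrable_indicator_iff hmA).2 (integrableOn_const (C := (1 : ℝ))
      (hfin _ inter_subset_right))) hhi
  simp only [conv_ind hmA, integral_indicator hmA, integral_neg_eq_self g, integral_const,
    ContinuousLinearMap.lsmul_apply, smul_eq_mul, mul_one, MeasurableSet.univ,
    measureReal_restrict_apply, univ_inter] at hI
  have b1 : volume.real (Eᶜ ∩ ball q r) - ε ≤ ∫ z, g z := by
    have c1 : volume.real K ≤ ∫ z, g z := by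
      rw [← integral_indicator_one hK.measurableSet]
      refine integral_mono ((integrable_indicator_iff hK.measurableSet).2
        (integrableOn_const (hfin _ hKB))) hgi fun z => ?_
      by_cases hz : z ∈ K
      · simp [hz, hg1 hz]
      · simp [hz, (hg z).1]
    have c2 : volume.real ((Eᶜ ∩ ball q r) \ K) ≤ ε :=
      ENNReal.toReal_le_of_le_ofReal hε.le hK1.le
    have c3 := measureReal_sdiff (μ := volume) hKA hK.measurableSet (hfin _ inter_subset_right)
    linarith
  have b2 : ∫ t in E, g (-(0 - t)) ≤ ε := by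
    have c2 : volume.real (V \ K) ≤ ε := ENNReal.toReal_le_of_le_ofReal hε.le hV1.le
    have hm : MeasurableSet (V \ K) := hV.measurableSet.diff hK.measurableSet
    refine le_trans ?_ c2
    rw [← integral_indicator_one hm, ← integral_indicator hE]
    simp only [zero_sub, neg_neg]
    refine integral_mono (hgi.indicator hE) ((integrable_indicator_iff hm).2
      (integrableOn_const (hV1.trans ENNReal.ofReal_lt_top).ne)) fun z => ?_
    by_cases hz : z ∈ E
    · by_cases hz' : g z = 0
      · simp only [indicator_of_mem hz, hz']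
        exact indicator_nonneg (fun _ _ => zero_le_one) z
      · have : z ∈ V \ K := ⟨(hgs z hz').1, fun h => (hKA h).1 hz⟩
        simp only [indicator_of_mem hz, indicator_of_mem this]
        exact (hg z).2
    · simp only [indicator_of_notMem hz]
      exact indicator_nonneg (fun _ _ => zero_le_one) z
  have b3 : ∫ w, ∫ t in E ∩ ball q r, g (-(w - t)) ≤ c * (ε + P * (2 * r)) := by
    have hm : MeasurableSet (closedBall (0 : ℂ) (2 * r)) := measurableSet_closedBall
    have e : c * (ε + P * (2 * r)) =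
        ∫ w, (closedBall (0 : ℂ) (2 * r)).indicator (fun _ => ε + P * (2 * r)) w := by
      rw [integral_indicator hm]; simp [hc]
    rw [e]
    refine integral_mono_of_nonneg (Eventually.of_forall fun w => integral_nonneg fun t => (hg _).1)
      ((integrable_indicator_iff hm).2 (integrableOn_const measure_closedBall_lt_top.ne))
      (Eventually.of_forall fun w => ?_)
    by_cases hw : w ∈ closedBall (0 : ℂ) (2 * r)
    · simp only [indicator_of_mem hw]
      have d1 := shift_le hE (h := fun z => g (-z)) (hgd.comp contDiff_neg) hr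
        (fun z hz => (hgs _ hz).2) (fun z => abs_le.2 ⟨by linarith [(hg (-z)).1], (hg _).2⟩)
        hP hper hw
      refine le_trans (setIntegral_mono_set (hhi.comp_sub_left w).integrableOn
        (Eventually.of_forall fun t => (hg _).1) inter_subset_left.eventuallyLE) ?_
      linarith
    · simp only [indicator_of_notMem hw]
      refine le_of_eq (setIntegral_eq_zero_of_forall_eq_zero fun t ht => ?_)
      by_contra hne
      apply hw
      have e1 := (hgs _ hne).2
      have e2 := ht.2
      rw [mem_ball, dist_eq_norm] at e1 e2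
      rw [mem_closedBall_zero_iff, show w = (t - q) - (-(w - t) - q) by ring]
      linarith [norm_sub_le (t - q) (-(w - t) - q)]
  rw [hI] at b3
  exact (mul_le_mul_of_nonneg_left b1 ha0).trans b3

theorem rel_iso {Ω : Set ℂ} (ho : IsOpen Ω) (hc : IsPreconnected Ω) (hb : volume Ω ≠ ∞)
    {d : ℝ≥0∞} (hd : d ≠ 0) : ∃ m : ℝ≥0∞, 0 < m ∧ ∀ E : Set ℂ, MeasurableSet E →
      d ≤ volume (E ∩ Ω) → d ≤ volume (Eᶜ ∩ Ω) → m ≤ per E Ω := by
  by_contra hn
  push Not at hn
  choose E hE h1 h2 h3 using fun n : ℕ => hn (ENNReal.ofReal (1 / ((n : ℝ) + 1)))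
    (ENNReal.ofReal_pos.2 (by positivity))
  let 𝒰 : Ultrafilter ℕ := Ultrafilter.of atTop
  have hU : (𝒰 : Filter ℕ) ≤ atTop := Ultrafilter.of_le atTop
  let Sm : (ℕ → Set ℂ) → Set ℂ → Prop := fun F V => Tendsto (fun n => volume (F n ∩ V)) 𝒰 (𝓝 0)
  have mono : ∀ F V V', V ⊆ V' → Sm F V' → Sm F V := fun F V V' h h' =>
    tendsto_of_tendsto_of_tendsto_of_le_of_le tendsto_const_nhds h' (fun _ => zero_le)
      fun n => measure_mono (inter_subset_inter_right _ h)
  let A : (ℕ → Set ℂ) → Set ℂ := fun F => {x | ∃ V ∈ 𝓝 x, Sm F V}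
  have hA : ∀ F, IsOpen (A F) := fun F => isOpen_iff_mem_nhds.2 fun x ⟨V, hV, h⟩ =>
    (eventually_mem_nhds_iff.2 hV).mono fun y hy => ⟨V, hy, h⟩
  have hfin : ∀ F, (∀ n, d ≤ volume (F n ∩ Ω)) → ¬ Ω ⊆ A F := by
    intro F hF hs
    obtain ⟨K, hKΩ, hK, hK1⟩ := ho.measurableSet.exists_isCompact_sdiff_lt hb hd
    have hS : Sm F K := by
      refine hK.induction_on (p := Sm F) ?_ (fun s t h => mono F s t h) (fun s t hs ht => ?_)
        fun x hx => ?_
      · simp only [Sm, inter_empty, measure_empty]; exact tendsto_const_nhds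
      · refine tendsto_of_tendsto_of_tendsto_of_le_of_le tendsto_const_nhds
          (by simpa using Tendsto.add hs ht) (fun _ => zero_le) fun n => ?_
        simp only [inter_union_distrib_left]; exact measure_union_le _ _
      · obtain ⟨V, hV, h⟩ := hs (hKΩ hx)
        exact ⟨V, mem_nhdsWithin_of_mem_nhds hV, h⟩
    have h4 : Tendsto (fun n => volume (F n ∩ K) + volume (Ω \ K)) 𝒰 (𝓝 (0 + volume (Ω \ K))) :=
      hS.add_const _
    refine hK1.not_ge ?_
    rw [zero_add] at h4
    refine ge_of_tendsto' h4 fun n => (hF n).trans ?_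
    refine le_trans (measure_mono fun z hz => ?_) (measure_union_le _ _)
    by_cases hz' : z ∈ K
    · exact Or.inl ⟨hz.1, hz'⟩
    · exact Or.inr ⟨hz.2, hz'⟩
  have hdis : Disjoint (A E) (A fun n => (E n)ᶜ) := by
    refine disjoint_left.2 fun x ⟨V, hV, h⟩ ⟨V', hV', h'⟩ => ?_
    have h4 : 0 < volume (V ∩ V') := Measure.measure_pos_of_mem_nhds _ (inter_mem hV hV')
    refine h4.not_ge ?_
    have h5 := Tendsto.add h h'
    rw [add_zero] at h5
    refine ge_of_tendsto' h5 fun n => ?_
    refine le_trans (measure_mono fun z hz => ?_) (measure_union_le _ _)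
    by_cases hz' : z ∈ E n
    · exact Or.inl ⟨hz', hz.1⟩
    · exact Or.inr ⟨hz', hz.2⟩
  have hcov : Ω ⊆ A E ∪ A fun n => (E n)ᶜ := by
    intro q hq
    obtain ⟨r', hr', hsub⟩ := Metric.isOpen_iff.1 ho q hq
    obtain ⟨r, rfl⟩ : ∃ r, r' = 4 * r := ⟨r' / 4, by ring⟩
    have hr : 0 < r := by linarith
    have hB : volume (ball q r) ≠ ∞ := measure_ball_lt_top.ne
    have hf : ∀ S : Set ℂ, volume (S ∩ ball q r) ≠ ∞ := fun S =>
      measure_ne_top_of_subset inter_subset_right hB
    have hlim : ∀ F : ℕ → Set ℂ, ∃ a, Tendsto (fun n => volume.real (F n ∩ ball q r)) 𝒰 (𝓝 a) ∧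
        0 ≤ a ∧ (a = 0 → q ∈ A F) := by
      intro F
      obtain ⟨a, ha, h⟩ := (isCompact_Icc (a := 0) (b := volume.real (ball q r))).ultrafilter_le_nhds
        (𝒰.map fun n => volume.real (F n ∩ ball q r)) (by
          rw [Ultrafilter.coe_map, le_principal_iff, mem_map]
          exact Eventually.of_forall fun n =>
            ⟨measureReal_nonneg, measureReal_mono inter_subset_right hB⟩)
      refine ⟨a, h, ha.1, fun e => ⟨ball q r, ball_mem_nhds q hr, ?_⟩⟩
      subst e
      exact (ENNReal.tendsto_toReal_zero_iff (fun n => hf _)).1 h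
    obtain ⟨a, ha, ha0, ha1⟩ := hlim E
    obtain ⟨b, hb', hb0, hb1⟩ := hlim fun n => (E n)ᶜ
    have h5 : Tendsto (fun n : ℕ => volume.real (closedBall (0 : ℂ) (2 * r)) *
        (1 / ((n : ℝ) + 1) * (2 * r))) 𝒰 (𝓝 (volume.real (closedBall (0 : ℂ) (2 * r)) *
          (0 * (2 * r)))) :=
      ((tendsto_one_div_add_atTop_nhds_zero_nat.mono_left hU).mul_const _).const_mul _
    have h6 : a * b ≤ 0 := by
      have := le_of_tendsto_of_tendsto' (ha.mul hb') h5 fun n =>
        loc_iso (hE n) hr (by positivity) (le_trans ?_ (h3 n).le)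
      · simpa using this
      · exact iSup_mono fun φ => iSup_mono fun _ => iSup_mono fun _ =>
          iSup_mono' fun h => ⟨h.trans hsub, le_rfl⟩
    rcases mul_eq_zero.1 (le_antisymm h6 (mul_nonneg ha0 hb0)) with h | h
    · exact Or.inl (ha1 h)
    · exact Or.inr (hb1 h)
  rcases hc.subset_or_subset (hA _) (hA _) hdis hcov with h | h
  · exact hfin _ h1 h
  · exact hfin _ h2 h

end Pool.Agent.MP_20201c_gt.H27
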