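import Pool.Agent.MP_20201c_gt.H91.ZBall

/-! Lifts of simplices of the cycle space and the generating cocycle. -/

open MeasureTheory Set Filter Topology
open scoped ENNReal

namespace Pool.Agent.MP_20201c_gt.H27
open Pool.Agent.MP_20201c_gt.H91

variable {Ω : Set ℂ}

/-- Area in `Ω` of the symmetric difference. -/
noncomputable def d1 (Ω : Set ℂ) (E F : Ch2 Ω) : ℝ≥0∞ := volume (symmDiff E.1 F.1 ∩ Ω)

/-- The complement. -/
def cp (E : Ch2 Ω) : Ch2 Ω := ⟨E.1ᶜ, E.2.compl⟩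

theorem d1_self (E : Ch2 Ω) : d1 Ω E E = 0 := by simp [d1]

theorem d1_comm (E F : Ch2 Ω) : d1 Ω E F = d1 Ω F E := by rw [d1, d1, symmDiff_comm]

theorem d1_tri (E F G : Ch2 Ω) : d1 Ω E G ≤ d1 Ω E F + d1 Ω F G :=
  zb_vol_le _ _ _ (by intro x; simp only [mem_symmDiff, mem_union]; tauto)

theorem d1_cp (E F : Ch2 Ω) : d1 Ω (cp E) (cp F) = d1 Ω E F := by
  have : symmDiff E.1ᶜ F.1ᶜ = symmDiff E.1 F.1 := by
    ext x; simp only [mem_symmDiff, mem_compl_iff]; tauto
  simp only [d1, cp, this]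

theorem cp_cp (E : Ch2 Ω) : cp (cp E) = E := Subtype.ext (compl_compl _)

theorem d1_cp_left (E F : Ch2 Ω) : d1 Ω (cp E) F = d1 Ω E (cp F) := by
  rw [← d1_cp E (cp F), cp_cp]

theorem d1_add (E F : Ch2 Ω) :
    d1 Ω E F + d1 Ω E (cp F) = volume Ω := by
  have h1 : symmDiff E.1 F.1ᶜ = (symmDiff E.1 F.1)ᶜ := by
    ext x; simp only [mem_symmDiff, mem_compl_iff]; tauto
  simp only [d1, cp, h1]
  rw [inter_comm, inter_comm _ Ω, ← sdiff_eq]
  exact measure_inter_add_sdiff Ω (E.2.symmDiff F.2)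

theorem edist_eq (E F : Ch2 Ω) :
    edist (SeparationQuotient.mk E : Cyc Ω) (SeparationQuotient.mk F) =
      min (d1 Ω E F) (d1 Ω E (cp F)) := zb_edist_mk E F

theorem mk_cp (E : Ch2 Ω) : (SeparationQuotient.mk (cp E) : Cyc Ω) = SeparationQuotient.mk E := by
  refine edist_eq_zero.1 (le_antisymm ?_ zero_le)
  rw [edist_eq]
  exact le_trans (min_le_right _ _) (le_of_eq (d1_self _))

theorem mk_eq_of_d1 {E F : Ch2 Ω} (h : d1 Ω E F = 0) :
    (SeparationQuotient.mk E : Cyc Ω) = SeparationQuotient.mk F := by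
  refine edist_eq_zero.1 (le_antisymm ?_ zero_le)
  rw [edist_eq]
  exact le_trans (min_le_left _ _) (le_of_eq h)

theorem d1_of_mk_eq {E F : Ch2 Ω}
    (h : (SeparationQuotient.mk E : Cyc Ω) = SeparationQuotient.mk F) :
    d1 Ω E F = 0 ∨ d1 Ω E (cp F) = 0 := by
  have := edist_eq E F
  rw [h, edist_self] at this
  rcases min_choice (d1 Ω E F) (d1 Ω E (cp F)) with h1 | h1 <;> rw [h1] at this
  · exact Or.inl this.symm
  · exact Or.inr this.symm

/-- Continuity for the area of the symmetric difference. -/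
def C1 (Ω : Set ℂ) {X : Type} [TopologicalSpace X] (e : X → Ch2 Ω) : Prop :=
  ∀ x, Tendsto (fun x' => d1 Ω (e x') (e x)) (𝓝 x) (𝓝 0)

section
variable {X X' : Type} [TopologicalSpace X] [TopologicalSpace X']

theorem C1.comp {e : X → Ch2 Ω} (h : C1 Ω e) {φ : X' → X} (hφ : Continuous φ) :
    C1 Ω (fun x => e (φ x)) := fun x => (h (φ x)).comp hφ.continuousAt

theorem C1.cp {e : X → Ch2 Ω} (h : C1 Ω e) : C1 Ω (fun x => cp (e x)) := fun x => by
  simpa only [d1_cp] using h x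

theorem C1.const (E : Ch2 Ω) : C1 Ω (fun _ : X => E) := fun _ => by
  simpa only [d1_self] using tendsto_const_nhds

theorem C1.continuous {e : X → Ch2 Ω} (h : C1 Ω e) :
    Continuous fun x => (SeparationQuotient.mk (e x) : Cyc Ω) := by
  rw [continuous_iff_continuousAt]
  intro x
  rw [ContinuousAt, tendsto_iff_edist_tendsto_0]
  exact tendsto_of_tendsto_of_tendsto_of_le_of_le tendsto_const_nhds (h x)
    (fun _ => zero_le) fun x' => zb_edist_le _ _

/-- Two lifts of one map agree or are complementary. -/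
theorem lift_unique [PreconnectedSpace X] (h0 : volume Ω ≠ 0)
    {e e' : X → Ch2 Ω} (h : C1 Ω e) (h' : C1 Ω e')
    (he : ∀ x, (SeparationQuotient.mk (e x) : Cyc Ω) = SeparationQuotient.mk (e' x)) :
    (∀ x, d1 Ω (e x) (e' x) = 0) ∨ ∀ x, d1 Ω (e x) (cp (e' x)) = 0 := by
  have hop : ∀ {f f' : X → Ch2 Ω}, C1 Ω f → C1 Ω f' →
      (∀ x, (SeparationQuotient.mk (f x) : Cyc Ω) = SeparationQuotient.mk (f' x)) →
      IsOpen {x | d1 Ω (f x) (f' x) = 0} := by
    intro f f' hf hf' hff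
    rw [isOpen_iff_mem_nhds]
    intro x hx
    have ht : Tendsto (fun x' => d1 Ω (f x') (f x) + d1 Ω (f' x') (f' x)) (𝓝 x) (𝓝 0) := by
      simpa using (hf x).add (hf' x)
    filter_upwards [ht.eventually (gt_mem_nhds (pos_iff_ne_zero.2 h0))] with x' hx'
    rcases d1_of_mk_eq (hff x') with h1 | h1
    · exact h1
    · exfalso
      have h2 := d1_add (f x') (f' x')
      rw [h1, add_zero] at h2
      have h3 : d1 Ω (f x') (f' x') ≤ d1 Ω (f x') (f x) + d1 Ω (f' x') (f' x) := by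
        refine le_trans (d1_tri _ (f x) _) (add_le_add le_rfl ?_)
        refine le_trans (d1_tri _ (f' x) _) ?_
        rw [show d1 Ω (f x) (f' x) = 0 from hx, zero_add, d1_comm]
      rw [h2] at h3
      exact absurd hx' (not_lt.2 h3)
  have h1 := hop h h' he
  have h2 := hop h h'.cp fun x => by rw [mk_cp]; exact he x
  have hd : Disjoint {x | d1 Ω (e x) (e' x) = 0} {x | d1 Ω (e x) (cp (e' x)) = 0} := by
    rw [Set.disjoint_left]
    intro x hx hx'
    have := d1_add (e x) (e' x)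
    rw [show d1 Ω (e x) (e' x) = 0 from hx, show d1 Ω (e x) (cp (e' x)) = 0 from hx'] at this
    exact h0 (by simpa using this.symm)
  rcases isPreconnected_univ.subset_or_subset h1 h2 hd (fun x _ => d1_of_mk_eq (he x)) with h | h
  · exact Or.inl fun x => h (mem_univ x)
  · exact Or.inr fun x => h (mem_univ x)

/-- A map close to a map with a lift has a lift. -/
theorem lift_close {d : ℝ≥0∞} (hd : 8 * d ≤ volume Ω) (hd0 : 0 < d)
    {e : X → Ch2 Ω} (h : C1 Ω e) {σ : X → Cyc Ω} (hσ : Continuous σ)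
    (hc : ∀ x, edist (σ x) (SeparationQuotient.mk (e x)) < d) :
    ∃ e' : X → Ch2 Ω, C1 Ω e' ∧ ∀ x, SeparationQuotient.mk (e' x) = σ x := by
  choose e' he' he'' using fun x => zb_rep (e x) (σ x) (hc x)
  refine ⟨e', fun x => ?_, he'⟩
  have ht : Tendsto (fun x' => edist (σ x') (σ x)) (𝓝 x) (𝓝 0) :=
    tendsto_iff_edist_tendsto_0.1 hσ.continuousAt
  refine tendsto_of_tendsto_of_tendsto_of_le_of_le' tendsto_const_nhds ht
    (Eventually.of_forall fun _ => zero_le) ?_
  filter_upwards [(h x).eventually (gt_mem_nhds hd0)] with x' hx'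
  rw [← he' x, ← he' x']
  refine zb_edist_eq (e x) (e' x') (e' x) (d := 2 * d) (by rwa [← mul_assoc, show (4 : ℝ≥0∞) * 2 = 8 by norm_num]) ?_ ?_
  · refine lt_of_le_of_lt (d1_tri (e' x') (e x') (e x)) ?_
    rw [two_mul]
    exact ENNReal.add_lt_add (he'' x') hx'
  · refine lt_of_lt_of_le (he'' x) ?_
    rw [two_mul]; exact le_self_add

end

/-- Every simplex of the cycle space has a lift. -/
theorem exists_lift (h0 : volume Ω ≠ 0) {n : ℕ} {σ : Sm (n + 1) → Cyc Ω} (hσ : Continuous σ) :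
    ∃ e : Sm (n + 1) → Ch2 Ω, C1 Ω e ∧ ∀ x, SeparationQuotient.mk (e x) = σ x := by
  classical
  obtain ⟨d, hd0, hd⟩ : ∃ d : ℝ≥0∞, 0 < d ∧ 8 * d ≤ volume Ω :=
    ⟨volume Ω / 8, ENNReal.div_pos h0 (by norm_num), ENNReal.mul_div_le⟩
  let x₀ : Sm (n + 1) := stdSimplex.vertex 0
  let H : Icc (0 : ℝ) 1 × Sm (n + 1) → Sm (n + 1) := fun q =>
    ⟨(1 - q.1.1) • x₀.1 + q.1.1 • q.2.1,
      convex_stdSimplex ℝ _ x₀.2 q.2.2 (sub_nonneg.2 q.1.2.2) q.1.2.1 (by ring)⟩
  have hH : Continuous H := by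
    refine Continuous.subtype_mk ?_ _
    fun_prop
  have hu : UniformContinuous (σ ∘ H) := CompactSpace.uniformContinuous_of_continuous (hσ.comp hH)
  obtain ⟨δ, hδ, hδ'⟩ := EMetric.uniformContinuous_iff.1 hu d hd0
  have hS : ∀ s : Icc (0 : ℝ) 1, ∃ e : Sm (n + 1) → Ch2 Ω, C1 Ω e ∧
      ∀ x, SeparationQuotient.mk (e x) = σ (H (s, x)) := by
    have hstep : ∀ s s' : Icc (0 : ℝ) 1, edist s' s < δ →
        (∃ e : Sm (n + 1) → Ch2 Ω, C1 Ω e ∧ ∀ x, SeparationQuotient.mk (e x) = σ (H (s, x))) →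
        ∃ e : Sm (n + 1) → Ch2 Ω, C1 Ω e ∧ ∀ x, SeparationQuotient.mk (e x) = σ (H (s', x)) := by
      rintro s s' hs ⟨e, he, he'⟩
      refine lift_close hd hd0 he (hσ.comp (hH.comp (by fun_prop))) fun x => ?_
      rw [he' x]
      refine hδ' (a := (s', x)) (b := (s, x)) ?_
      rw [Prod.edist_eq, edist_self]
      exact max_lt hs hδ
    let P : Set (Icc (0 : ℝ) 1) := {s | ∃ e : Sm (n + 1) → Ch2 Ω, C1 Ω e ∧
      ∀ x, SeparationQuotient.mk (e x) = σ (H (s, x))}
    have hcl : IsClopen P := by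
      constructor
      · rw [← isOpen_compl_iff, isOpen_iff_mem_nhds]
        intro s hs
        filter_upwards [Metric.eball_mem_nhds s hδ] with s' hs' hP
        exact hs (hstep s' s (by rw [edist_comm]; exact hs') hP)
      · rw [isOpen_iff_mem_nhds]
        intro s hs
        filter_upwards [Metric.eball_mem_nhds s hδ] with s' hs'
        exact hstep s s' hs' hs
    have hne : P.Nonempty := by
      obtain ⟨E, hE⟩ := SeparationQuotient.surjective_mk (σ x₀)
      refine ⟨⟨0, by simp⟩, fun _ => E, C1.const E, fun x => ?_⟩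
      rw [hE]; congr 1
      apply Subtype.ext; simp [H]
    intro s
    have : P = univ := hcl.eq_univ hne
    exact (this ▸ mem_univ s : s ∈ P)
  obtain ⟨e, he, he'⟩ := hS ⟨1, by simp⟩
  refine ⟨e, he, fun x => ?_⟩
  rw [he' x]; congr 1
  apply Subtype.ext; simp [H]

instance instPreSm (n : ℕ) : PreconnectedSpace (Sm n) :=
  isPreconnected_iff_preconnectedSpace.1 (convex_stdSimplex ℝ (Fin n)).isPreconnected

/-- The generating cocycle. -/
theorem exists_coc (h0 : volume Ω ≠ 0) :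
    ∃ (lam : C(Sm 2, Cyc Ω) → ZMod 2) (μ : Ch2 Ω → ZMod 2), IsCocycle lam ∧
      (∀ E F, d1 Ω E F = 0 → μ E = μ F) ∧ (∀ E, μ (cp E) = μ E + 1) ∧
      ∀ (σ : C(Sm 2, Cyc Ω)) (e : Sm 2 → Ch2 Ω), C1 Ω e →
        (∀ x, SeparationQuotient.mk (e x) = σ x) →
        lam σ = μ (e (stdSimplex.vertex 0)) + μ (e (stdSimplex.vertex 1)) := by
  classical
  choose s hs using fun z : Cyc Ω => SeparationQuotient.surjective_mk z
  let μ : Ch2 Ω → ZMod 2 := fun E => if d1 Ω E (s (SeparationQuotient.mk E)) = 0 then 0 else 1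
  have hμ1 : ∀ E F, d1 Ω E F = 0 → μ E = μ F := by
    intro E F h
    have h1 := mk_eq_of_d1 h
    have h2 : ∀ G, d1 Ω E G = d1 Ω F G := fun G => le_antisymm
      (by simpa [h] using d1_tri E F G)
      (by simpa [d1_comm F E, h] using d1_tri F E G)
    simp only [μ, h1, h2]
  have hμ2 : ∀ E, μ (cp E) = μ E + 1 := by
    intro E
    have h1 := d1_add E (s (SeparationQuotient.mk E))
    have h2 := d1_of_mk_eq (hs (SeparationQuotient.mk E)).symm
    simp only [μ, mk_cp, d1_cp_left]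
    by_cases h : d1 Ω E (s (SeparationQuotient.mk E)) = 0
    · have : d1 Ω E (cp (s (SeparationQuotient.mk E))) ≠ 0 := by
        intro h'; rw [h, h'] at h1; exact h0 (by simpa using h1.symm)
      simp [h, this]
    · have : d1 Ω E (cp (s (SeparationQuotient.mk E))) = 0 := h2.resolve_left h
      simp only [h, this, if_true, if_false]; decide
  choose L hL hL' using fun σ : C(Sm 2, Cyc Ω) => exists_lift h0 (n := 1) σ.continuous
  have key : ∀ (σ : C(Sm 2, Cyc Ω)) (e : Sm 2 → Ch2 Ω), C1 Ω e →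
      (∀ x, SeparationQuotient.mk (e x) = σ x) →
      μ (L σ (stdSimplex.vertex 0)) + μ (L σ (stdSimplex.vertex 1)) =
        μ (e (stdSimplex.vertex 0)) + μ (e (stdSimplex.vertex 1)) := by
    intro σ e he he'
    rcases lift_unique h0 (hL σ) he (fun x => by rw [hL', he']) with h | h
    · rw [hμ1 _ _ (h _), hμ1 _ _ (h _)]
    · rw [hμ1 _ _ (h _), hμ1 _ _ (h _), hμ2, hμ2]
      have : (1 : ZMod 2) + 1 = 0 := by decide
      linear_combination this
  refine ⟨fun σ => μ (L σ (stdSimplex.vertex 0)) + μ (L σ (stdSimplex.vertex 1)), μ, ?_,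
    hμ1, hμ2, key⟩
  intro σ
  obtain ⟨e, he, he'⟩ := exists_lift h0 (n := 2) σ.continuous
  have h3 : ∀ i : Fin 3, μ (L (σ.comp (face 2 i)) (stdSimplex.vertex 0)) +
      μ (L (σ.comp (face 2 i)) (stdSimplex.vertex 1)) =
      μ (e (stdSimplex.vertex (i.succAbove 0))) + μ (e (stdSimplex.vertex (i.succAbove 1))) := by
    intro i
    rw [key (σ.comp (face 2 i)) (fun x => e (face 2 i x)) (he.comp (face 2 i).continuous)
      (fun x => he' _)]
    simp only [face, ContinuousMap.coe_mk, stdSimplex.map_vertex]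
  simp only [h3]
  show ∑ i : Fin 3, _ = _
  rw [Fin.sum_univ_three]
  have e1 : (0 : Fin 3).succAbove 0 = 1 := by decide
  have e2 : (0 : Fin 3).succAbove 1 = 2 := by decide
  have e3 : (1 : Fin 3).succAbove 0 = 0 := by decide
  have e4 : (1 : Fin 3).succAbove 1 = 2 := by decide
  have e5 : (2 : Fin 3).succAbove 0 = 0 := by decide
  have e6 : (2 : Fin 3).succAbove 1 = 1 := by decide
  rw [e1, e2, e3, e4, e5, e6]
  have h2 : (2 : ZMod 2) = 0 := by decide
  linear_combination (μ (e (stdSimplex.vertex 0)) + μ (e (stdSimplex.vertex 1)) +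
    μ (e (stdSimplex.vertex 2))) * h2

end Pool.Agent.MP_20201c_gt.H27
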