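import Pool.Agent.MP_20201c_gt.H27.Iso
import Pool.Agent.MP_20201c_gt.H91.ZBall
import Pool.Agent.MP_20201c_gt.H91.Cup

/-! The widths of a bounded domain are positive. -/

open MeasureTheory Set Filter Topology
open scoped ENNReal

namespace Pool.Agent.MP_20201c_gt.H27
open Pool.Agent.MP_20201c_gt.H91

theorem exists_far {Ω : Set ℂ} (hm : MeasurableSet Ω) (hb : Bornology.IsBounded Ω)
    {d : ℝ≥0∞} (h0 : 0 < d) (hd : 4 * d ≤ volume Ω) {p : ℕ} (S : Sweepout Ω p) (z₀ : Cyc Ω) :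
    ∃ x, d ≤ edist (S.Φ x) z₀ := by
  by_contra hn
  push Not at hn
  obtain ⟨lam, hl, hc⟩ := S.detect
  obtain ⟨w, hw, hw0, hw1⟩ := exists_cycle_of_not_cob S.Φ lam p hc
  obtain ⟨c, hc1, hc2⟩ := zball hm hb z₀ h0 hd (mp S.Φ w)
    (H91.mp_mem (P := Cts _ ∩ Deq _ (p + 1)) (Q := BallS z₀ d) _
      (fun s hs => And.intro (S.Φ.continuous.comp hs.1) fun x => hn _) hw)
    (by rw [bd_mp, hw0, map_zero])
  exact hw1 (hc2 ▸ cup_bd hl p (sp_mono (fun s hs => hs.1) hc1))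

theorem width_pos {Ω : Set ℂ} (ho : IsOpen Ω) (hc : IsConnected Ω)
    (hb : Bornology.IsBounded Ω) (p : ℕ) : 0 < width Ω p := by
  have h0 : 0 < volume Ω := ho.measure_pos _ hc.nonempty
  have hd : 0 < volume Ω / 4 := ENNReal.div_pos h0.ne' (by simp)
  obtain ⟨m, hm, H⟩ := rel_iso ho hc.isPreconnected hb.measure_lt_top.ne hd.ne'
  refine hm.trans_le (le_iInf fun S => ?_)
  obtain ⟨x, hx⟩ := exists_far ho.measurableSet hb hd ENNReal.mul_div_le S
    (SeparationQuotient.mk ⟨∅, MeasurableSet.empty⟩)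
  refine le_iSup_of_le x (le_iInf₂ fun E hE => ?_)
  rw [← hE, zb_edist_mk, fdist, le_min_iff] at hx
  rw [univ_inter]
  refine H E.1 E.2 (hx.1.trans (le_of_eq ?_)) (hx.2.trans (le_of_eq ?_)) <;>
  · congr 2
    ext z; simp [mem_symmDiff]

end Pool.Agent.MP_20201c_gt.H27
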