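import Pool.Agent.MP_20201c_gt.H27.Lam
import Pool.Agent.MP_20201c_gt.H27.Half
import Pool.Agent.MP_20201c_gt.H91.Conv
import Pool.Agent.MP_20201c_gt.H91.Cup

/-! The widths of a bounded set of positive area are finite. -/

open MeasureTheory Set Filter Topology
open scoped ENNReal

namespace Pool.Agent.MP_20201c_gt.H27
open Pool.Agent.MP_20201c_gt.H91

variable {Ω : Set ℂ}

theorem width_le_of_cycle (p : ℕ) {lam : C(Sm 2, Cyc Ω) → ZMod 2} (hl : IsCocycle lam)
    {w : Ch (Cyc Ω)} (hw : w ∈ Sp (Cts (Cyc Ω) ∩ Deq (Cyc Ω) (p + 1))) (h0 : bd w = 0)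
    (hc : lift (cupS lam p) w ≠ 0)
    (hn : ∀ ε : ℝ≥0∞, 0 < ε → ∃ r : ℝ, 0 < r ∧ ∀ s ∈ w.support, ∀ y q,
      massIn Ω (s.2 y) (Metric.ball q r) ≤ ε)
    {M : ℝ≥0∞} (hM : ∀ s ∈ w.support, ∀ y, massIn Ω (s.2 y) univ ≤ M) : width Ω p ≤ M := by
  obtain ⟨N, K, hK, Φ, w', h, h1, h2, h3, h4, h5⟩ := conv p hw h0
  have hd : lift (cupS lam p) (mp Φ w') ≠ 0 := by
    intro e
    have := cup_bd hl p h4
    rw [← h5, map_add, e, zero_add] at this
    exact hc this
  let S : Sweepout Ω p := ⟨N, K, hK, Φ, fun ε hε => by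
    obtain ⟨r, hr, H⟩ := hn ε hε
    refine ⟨r, hr, fun x q => ?_⟩
    obtain ⟨s, hs, y, e⟩ := h3 x
    rw [e]; exact H s hs y q, lam, hl, not_cob_of_cycle Φ lam p h1 h2 hd⟩
  refine (iInf_le _ S).trans (iSup_le fun x => ?_)
  obtain ⟨s, hs, y, e⟩ := h3 x
  exact (congrArg (fun z => massIn Ω z univ) e).trans_le (hM s hs y)

/-- The cut points. -/
noncomputable def cut (R : ℝ) {n : ℕ} (s : Sm n) (k : ℕ) : ℝ :=
  -R + 2 * R * ∑ i : Fin n, if (i : ℕ) < k then s i else 0

def strip (R : ℝ) {n : ℕ} (s : Sm n) (k : ℕ) : Set ℂ :=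
  {z : ℂ | z.re ≤ cut R s (k + 1)} \ {z : ℂ | z.re ≤ cut R s k}

theorem meas_half (β : ℝ) : MeasurableSet {z : ℂ | z.re ≤ β} :=
  measurableSet_le Complex.measurable_re measurable_const

theorem meas_strip (R : ℝ) {n : ℕ} (s : Sm n) (k : ℕ) : MeasurableSet (strip R s k) :=
  (meas_half _).diff (meas_half _)

/-- The union of the chosen strips. -/
noncomputable def nk (Ω : Set ℂ) (R : ℝ) {n : ℕ} (a : Fin n → ZMod 2) (s : Sm n) : Ch2 Ω :=
  ⟨⋃ k ∈ Finset.univ.filter fun k : Fin n => a k = 1, strip R s k,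
    Finset.measurableSet_biUnion _ fun _ _ => meas_strip R s _⟩

section
variable {R : ℝ} {n : ℕ}

theorem cut_mono (hR : 0 ≤ R) (s : Sm n) : Monotone (cut R s) := by
  intro k l hkl
  unfold cut
  gcongr with i
  have := s.2.1 i
  split_ifs with h1 h2
  · exact le_rfl
  · omega
  · exact this
  · exact le_rfl

theorem cut_zero (s : Sm n) : cut R s 0 = -R := by simp [cut]

theorem cut_last (s : Sm n) : cut R s n = R := by
  have : ∑ i, s i = 1 := s.2.2
  simp only [cut, Fin.is_lt, if_true, this]; ring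

theorem cut_succ (s : Sm n) (k : Fin n) : cut R s (k + 1) = cut R s k + 2 * R * s k := by
  have : ∀ i : Fin n, (if (i : ℕ) < k + 1 then s i else 0) =
      (if (i : ℕ) < k then s i else 0) + if i = k then s i else 0 := by
    intro i
    by_cases h : i = k
    · subst h; simp
    · have : (i : ℕ) ≠ k := fun e => h (Fin.ext e)
      by_cases h2 : (i : ℕ) < k
      · simp [h, h2, Nat.lt_succ_of_lt h2]
      · have h3 : ¬ (i : ℕ) < k + 1 := by omega
        simp [h, h2, h3]
  simp only [cut, this, Finset.sum_add_distrib, Finset.sum_ite_eq', Finset.mem_univ, if_true]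
  ring

theorem cut_cont (k : ℕ) : Continuous fun s : Sm n => cut R s k := by
  unfold cut
  refine continuous_const.add (continuous_const.mul (continuous_finsetSum _ fun i _ => ?_))
  split_ifs
  · exact (continuous_apply i).comp continuous_subtype_val
  · exact continuous_const

theorem strip_unique (hR : 0 ≤ R) (s : Sm n) {k l : ℕ} {z : ℂ} (hk : z ∈ strip R s k)
    (hl : z ∈ strip R s l) : k = l := by
  have key : ∀ k l, z ∈ strip R s k → z ∈ strip R s l → ¬ k < l := fun k l hk hl h =>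
    hl.2 (le_trans (show z.re ≤ _ from hk.1) (cut_mono hR s (Nat.succ_le_of_lt h)))
  have := key k l hk hl
  have := key l k hl hk
  omega

theorem exists_strip (s : Sm n) {z : ℂ} (hz : |z.re| < R) :
    ∃ k : Fin n, z ∈ strip R s k ∧ s k ≠ 0 := by
  classical
  have h := abs_lt.1 hz
  have hn : z.re ≤ cut R s n := by rw [cut_last]; exact h.2.le
  have hex : ∃ m, z.re ≤ cut R s m := ⟨n, hn⟩
  have h1 := Nat.find_spec hex
  have h2 : Nat.find hex ≤ n := Nat.find_min' hex hn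
  have h3 : Nat.find hex ≠ 0 := by
    intro e; rw [e, cut_zero] at h1; linarith [h.1]
  obtain ⟨m, hm⟩ := Nat.exists_eq_succ_of_ne_zero h3
  have h4 : ¬ z.re ≤ cut R s m := Nat.find_min hex (by omega)
  rw [hm] at h1
  refine ⟨⟨m, by omega⟩, ⟨h1, h4⟩, fun e => h4 ?_⟩
  have := cut_succ (R := R) s ⟨m, by omega⟩
  rw [e] at this
  simp only [mul_zero, add_zero] at this
  exact this ▸ h1

theorem mem_nk (hR : 0 ≤ R) (a : Fin n → ZMod 2) (s : Sm n) {k : Fin n} {z : ℂ}
    (hk : z ∈ strip R s k) : z ∈ (nk Ω R a s).1 ↔ a k = 1 := by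
  simp only [nk, mem_iUnion, Finset.mem_filter, Finset.mem_univ, true_and, exists_prop]
  constructor
  · rintro ⟨l, h1, h2⟩
    rwa [show k = l from Fin.ext (strip_unique hR s hk h2)]
  · exact fun h => ⟨k, h, hk⟩

theorem nk_same (hR : 0 ≤ R) (hΩ : ∀ z ∈ Ω, |z.re| < R) {a a' : Fin n → ZMod 2} {s s' : Sm n}
    (h : ∀ k l, s k ≠ 0 → s' l ≠ 0 → (s = s' → k = l) → a k = a' l) :
    d1 Ω (nk Ω R a s) (nk Ω R a' s') = 0 := by
  have : symmDiff (nk Ω R a s).1 (nk Ω R a' s').1 ∩ Ω = ∅ := by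
    refine eq_empty_of_forall_notMem fun z ⟨h1, h2⟩ => ?_
    obtain ⟨k, hk, hk'⟩ := exists_strip s (hΩ z h2)
    obtain ⟨l, hl, hl'⟩ := exists_strip s' (hΩ z h2)
    have := h k l hk' hl' fun e => Fin.ext (strip_unique hR s hk (e ▸ hl))
    rw [mem_symmDiff, mem_nk hR a s hk, mem_nk hR a' s' hl, this] at h1
    tauto
  rw [d1, this, measure_empty]

theorem nk_cp (hR : 0 ≤ R) (hΩ : ∀ z ∈ Ω, |z.re| < R) (a : Fin n → ZMod 2) (s : Sm n) :
    d1 Ω (nk Ω R (a + 1) s) (cp (nk Ω R a s)) = 0 := by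
  have : symmDiff (nk Ω R (a + 1) s).1 (cp (nk Ω R a s)).1 ∩ Ω = ∅ := by
    refine eq_empty_of_forall_notMem fun z ⟨h1, h2⟩ => ?_
    obtain ⟨k, hk, -⟩ := exists_strip s (hΩ z h2)
    have e : ∀ x : ZMod 2, x + 1 = 1 ↔ ¬ x = 1 := by decide
    simp only [mem_symmDiff, cp, mem_compl_iff, mem_nk hR _ s hk, Pi.add_apply, Pi.one_apply,
      e] at h1
    tauto
  rw [d1, this, measure_empty]

theorem nk_C1 (hΩ : ∀ z ∈ Ω, |z.im| ≤ R) (a : Fin n → ZMod 2) : C1 Ω (nk Ω R a) := by
  intro s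
  have hb : ∀ s' : Sm n, d1 Ω (nk Ω R a s') (nk Ω R a s) ≤ ∑ k ∈ Finset.range (n + 1),
      ENNReal.ofReal (2 * |cut R s' k - cut R s k|) * ENNReal.ofReal (2 * R) := by
    intro s'
    refine le_trans ?_ (Finset.sum_le_sum fun k _ => zb_strip hΩ (cut R s k) _)
    refine le_trans (measure_mono ?_) (measure_biUnion_finset_le _ _)
    rintro z ⟨h1, h2⟩
    by_contra hn
    simp only [mem_iUnion, Finset.mem_range, not_exists, mem_inter_iff, mem_ofPred_eq, h2,
      and_true, not_le] at hn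
    have key : ∀ k < n + 1, z.re ≤ cut R s' k ↔ z.re ≤ cut R s k := by
      intro k hk
      have h3 := hn k hk
      rcases abs_cases (cut R s' k - cut R s k) with h4 | h4 <;>
      rcases abs_cases (z.re - cut R s k) with h5 | h5 <;>
      constructor <;> intro h6 <;> linarith [h4.1, h4.2, h5.1, h5.2]
    have : z ∈ (nk Ω R a s').1 ↔ z ∈ (nk Ω R a s).1 := by
      simp only [nk, mem_iUnion, strip, Set.mem_sdiff, mem_ofPred_eq]
      refine exists_congr fun k => exists_congr fun _ => ?_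
      rw [key (k + 1) (by omega), key k (by omega)]
    rw [mem_symmDiff] at h1
    tauto
  refine tendsto_of_tendsto_of_tendsto_of_le_of_le tendsto_const_nhds ?_ (fun _ => zero_le) hb
  have h0 : (0 : ℝ≥0∞) = ∑ k ∈ Finset.range (n + 1),
      ENNReal.ofReal (2 * |cut R s k - cut R s k|) * ENNReal.ofReal (2 * R) := by simp
  rw [h0]
  refine tendsto_finsetSum _ fun k _ => ?_
  refine ENNReal.Tendsto.mul_const ?_ (Or.inr ENNReal.ofReal_ne_top)
  have hc := cut_cont (R := R) (n := n) k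
  exact (ENNReal.continuous_ofReal.comp
    (continuous_const.mul (hc.sub continuous_const).abs)).tendsto s

theorem nk_per (hR : 0 ≤ R) (a : Fin n → ZMod 2) (s : Sm n) {V : Set ℂ} {q : ℂ} {r : ℝ}
    (hr : 0 ≤ r) (hV : V ⊆ Metric.ball q r) :
    per (nk Ω R a s).1 V ≤ ENNReal.ofReal (n * (4 * r)) := by
  refine iSup_le fun φ => iSup_le fun h1 => iSup_le fun h2 => iSup_le fun h3 => iSup_le fun h4 =>
    ENNReal.ofReal_le_ofReal ?_
  have hi := int_dvg h1 h2
  simp only [nk]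
  rw [integral_biUnion_finset _ (fun _ _ => meas_strip R s _) ?_ fun _ _ => hi.integrableOn]
  · refine le_trans (Finset.sum_le_card_nsmul _ _ (4 * r) fun k _ => ?_) ?_
    · have hsub : {z : ℂ | z.re ≤ cut R s k} ⊆ {z : ℂ | z.re ≤ cut R s (k + 1)} :=
        fun z hz => le_trans (show z.re ≤ _ from hz) (cut_mono hR s (Nat.le_succ _))
      rw [strip, setIntegral_sdiff (meas_half _) hi.integrableOn hsub]
      have a1 := abs_le.1 (half_le h1 h2 hr (h3.trans hV) h4 (cut R s (k + 1)))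
      have a2 := abs_le.1 (half_le h1 h2 hr (h3.trans hV) h4 (cut R s k))
      linarith [a1.2, a2.1]
    · rw [nsmul_eq_mul]
      gcongr
      exact (Finset.card_filter_le _ _).trans (by simp)
  · intro k _ l _ hkl
    exact disjoint_left.2 fun z hk hl => hkl (Fin.ext (strip_unique hR s hk hl))

theorem nk_mass (hR : 0 ≤ R) (a : Fin n → ZMod 2) (s : Sm n) {U : Set ℂ} {q : ℂ} {r : ℝ}
    (hr : 0 ≤ r) (hV : U ∩ Ω ⊆ Metric.ball q r) :
    massIn Ω (SeparationQuotient.mk (nk Ω R a s)) U ≤ ENNReal.ofReal (n * (4 * r)) :=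
  iInf₂_le_of_le (nk Ω R a s) rfl (nk_per hR a s hr hV)

end

theorem alt_sum (p : ℕ) :
    ∑ a ∈ Finset.univ.filter (fun a : Fin (p + 1) → ZMod 2 => a 0 = 0),
      ∏ i : Fin p, (a i.castSucc + a i.succ) = 1 := by
  rw [Finset.sum_eq_single (fun k : Fin (p + 1) => ((k : ℕ) : ZMod 2))]
  · refine Finset.prod_eq_one fun i _ => ?_
    have : ∀ x : ZMod 2, x + (x + 1) = 1 := by decide
    simp only [Fin.val_castSucc, Fin.val_succ, Nat.cast_add, Nat.cast_one, this]
  · intro a ha hne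
    by_contra h
    rw [← ne_eq, Finset.prod_ne_zero_iff] at h
    apply hne
    funext k
    induction k using Fin.induction with
    | zero => simpa using ha
    | succ i ih =>
      have h1 := h i (Finset.mem_univ _)
      have : ∀ x y : ZMod 2, x + y ≠ 0 → y = x + 1 := by decide
      rw [this _ _ h1, ih]; simp
  · intro h; exact absurd (by simp) h

theorem width_lt_top {Ω : Set ℂ} (hm : MeasurableSet Ω) (hb : Bornology.IsBounded Ω)
    (h0 : 0 < volume Ω) (p : ℕ) (hp : 1 ≤ p) : width Ω p < ⊤ := by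
  have _hm := hm
  obtain ⟨R, hR0, hR⟩ := hb.subset_ball_lt 0 (0 : ℂ)
  have hnorm : ∀ w ∈ Ω, ‖w‖ < R := fun w hw => by simpa using hR hw
  have him : ∀ w ∈ Ω, |w.im| ≤ R := fun w hw =>
    (Complex.abs_im_le_norm w).trans (hnorm w hw).le
  have hre : ∀ w ∈ Ω, |w.re| < R := fun w hw =>
    (Complex.abs_re_le_norm w).trans_lt (hnorm w hw)
  obtain ⟨lam, μ, hl, hμ1, hμ2, hlam⟩ := exists_coc h0.ne'
  let A := Finset.univ.filter (fun a : Fin (p + 1) → ZMod 2 => a 0 = 0)
  let f : (Fin (p + 1) → ZMod 2) → C(Sm (p + 1), Cyc Ω) := fun a =>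
    ⟨fun s => SeparationQuotient.mk (nk Ω R a s), (nk_C1 him a).continuous⟩
  let w : Ch (Cyc Ω) := ∑ a ∈ A, one ⟨p + 1, f a⟩
  have hsp : ∀ P : Set (Sx (Cyc Ω)), (∀ a, (⟨p + 1, f a⟩ : Sx (Cyc Ω)) ∈ P) → w ∈ Sp P :=
    fun P hP => Submodule.sum_mem _ fun a _ => one_mem (hP a)
  have hs : ∀ s ∈ w.support, ∃ a, (⟨p + 1, f a⟩ : Sx (Cyc Ω)) = s :=
    mem_sp.1 (hsp (range fun a => ⟨p + 1, f a⟩) fun a => ⟨a, rfl⟩)
  refine lt_of_le_of_lt (width_le_of_cycle p hl (w := w)
    (hsp _ fun a => ⟨(f a).continuous, rfl⟩) ?_ ?_ ?_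
    (M := ENNReal.ofReal ((p + 1 : ℕ) * (4 * R))) ?_) ENNReal.ofReal_lt_top
  · simp only [w, map_sum, bd_one, bdS]
    rw [Finset.sum_comm]
    refine Finset.sum_eq_zero fun i _ => ?_
    have hz : ∀ y : Sm p, fc p i y i = 0 := by
      intro y
      simp [fc, stdSimplex.map_coe, FunOnFinite.linearMap_apply_apply]
    obtain ⟨c, hc0, hc1, hc⟩ : ∃ c : Fin (p + 1) → ZMod 2, c 0 = 0 ∧ c ≠ 0 ∧
        ∀ a y, f (a + c) (fc p i y) = f a (fc p i y) := by
      by_cases hi : i = 0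
      · refine ⟨fun k => if k = 0 then 0 else 1, by simp, fun e => ?_, fun a y => ?_⟩
        · have := congrFun e (Fin.last p)
          have h2 : Fin.last p ≠ 0 := by
            intro e; have := congrArg Fin.val e; simp at this; omega
          simp [h2] at this
        · refine (mk_eq_of_d1 (nk_same hR0.le hre (a' := a + 1) fun k l hk _ e => ?_)).trans
            ((mk_eq_of_d1 (nk_cp hR0.le hre a _)).trans (mk_cp _))
          have hk0 : k ≠ 0 := fun e => hk (by rw [e, ← hi]; exact hz y)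
          simp [← e rfl, hk0]
      · refine ⟨fun k => if k = i then 1 else 0, by simp [Ne.symm hi], fun e => ?_, fun a y => ?_⟩
        · simpa using congrFun e i
        · refine mk_eq_of_d1 (nk_same hR0.le hre fun k l hk _ e => ?_)
          have hk0 : k ≠ i := fun e => hk (by rw [e]; exact hz y)
          simp [← e rfl, hk0]
    refine Finset.sum_involution (fun a _ => a + c) (fun a _ => ?_) (fun a _ _ e => hc1 ?_)
      (fun a ha => ?_) (fun a _ => ?_)
    · have : (f (a + c)) ∘ fc p i = f a ∘ fc p i := funext (hc a)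
      rw [this]; exact add_self2 _
    · simpa using e
    · simpa [A, hc0] using ha
    · funext k
      have : ∀ x y : ZMod 2, x + y + y = x := by decide
      exact this _ _
  · have hv : ∀ a (k : Fin (p + 1)), μ (nk Ω R a (stdSimplex.vertex k)) =
        μ (nk Ω R 0 (stdSimplex.vertex (0 : Fin (p + 1)))) + a k := by
      intro a k
      have hk : ∀ l : Fin (p + 1), (stdSimplex.vertex k : Sm (p + 1)) l ≠ 0 → l = k := by
        intro l hl
        by_contra hne
        exact hl (by simp [hne])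
      have e : ∀ x : ZMod 2, x = 0 ∨ x = 1 := by decide
      rcases e (a k) with h | h
      · rw [h, add_zero]
        exact hμ1 _ _ (nk_same hR0.le hre fun l _ hl _ _ => by rw [hk l hl, h]; rfl)
      · rw [h, ← hμ2, ← hμ1 _ _ (nk_cp hR0.le hre 0 _)]
        exact hμ1 _ _ (nk_same hR0.le hre fun l _ hl _ _ => by rw [hk l hl, h]; simp)
    have he : ∀ a (i : Fin p), lam ((f a).comp (edge p i)) = a i.castSucc + a i.succ := by
      intro a i
      rw [hlam _ (fun x => nk Ω R a (edge p i x)) ((nk_C1 him a).comp (edge p i).continuous)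
        fun _ => rfl]
      simp only [edge, ContinuousMap.coe_mk, stdSimplex.map_vertex, Matrix.cons_val_zero,
        Matrix.cons_val_one]
      rw [hv a i.castSucc, hv a i.succ]
      have : ∀ x y z : ZMod 2, x + y + (x + z) = y + z := by decide
      exact this _ _ _
    simp only [w, map_sum, lift_one, cupS_eq, cupPow, he]
    rw [alt_sum]; exact one_ne_zero
  · intro ε hε
    obtain ⟨δ, hδ, hδ'⟩ : ∃ δ : ℝ, 0 < δ ∧ ENNReal.ofReal δ ≤ ε := by
      obtain ⟨δ, -, h2, h3⟩ := ENNReal.lt_iff_exists_real_btwn.1 hε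
      exact ⟨δ, ENNReal.ofReal_pos.1 h2, h3.le⟩
    refine ⟨δ / ((p + 1 : ℕ) * 4), by positivity, fun s hs' y q => ?_⟩
    obtain ⟨a, rfl⟩ := hs s hs'
    refine (nk_mass hR0.le a y (by positivity) inter_subset_left).trans (le_trans (le_of_eq ?_) hδ')
    congr 1; field_simp
  · intro s hs' y
    obtain ⟨a, rfl⟩ := hs s hs'
    exact nk_mass hR0.le a y hR0.le (inter_subset_right.trans hR)

end Pool.Agent.MP_20201c_gt.H27
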